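import Pool.Agent.N557.QW.Stm

/-!
# QWP/COM: the commutation theorem and the trace of `L(G)`
-/

set_option autoImplicit false

namespace Pool.Agent.N169.QWP

open Pool.Agent.H494R3.GT Pool.Agent.N557.QW

noncomputable section

theorem star_ap {P : Type} (x : L2 P →L[ℂ] L2 P) (s t : P) :
    (star x (dl t)) s = (starRingEnd ℂ) ((x (dl s)) t) := by
  rw [← inner_dl, ContinuousLinearMap.star_eq_adjoint, ContinuousLinearMap.adjoint_inner_right,
    ← inner_conj_symm, inner_dl]

/-- the coefficients of a product -/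
theorem mul_coeff {P : Type} (x y : L2 P →L[ℂ] L2 P) (s t : P) :
    (x (y (dl s))) t = ∑' r, (x (dl r)) t * (y (dl s)) r := by
  have h0 : inner ℂ (dl t) (x (y (dl s))) = inner ℂ (star x (dl t)) (y (dl s)) := by
    rw [ContinuousLinearMap.star_eq_adjoint, ContinuousLinearMap.adjoint_inner_left]
  rw [← inner_dl t (x (y (dl s))), h0, lp.inner_eq_tsum]
  refine tsum_congr fun r => ?_
  rw [star_ap, RCLike.inner_apply, starRingEnd_self_apply, mul_comm]

variable {G : Type} [Group G]

theorem LG_coeff {x : L2 G →L[ℂ] L2 G} (hx : x ∈ LG G) (s t : G) :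
    (x (dl s)) t = cf x (t * s⁻¹) := by
  rw [← inner_dl]
  exact mem_LG_iff.1 hx s t

theorem com_coeff {y : L2 G →L[ℂ] L2 G} (hy : ∀ g : G, lam g * y = y * lam g) (s t : G) :
    (y (dl s)) t = cf y (s⁻¹ * t) := by
  have h1 : y (dl s) = lam s (y (dl 1)) := by
    have := congrArg (fun z : L2 G →L[ℂ] L2 G => z (dl 1)) (hy s)
    simp only [mul_ap, lam_dl, mul_one] at this
    exact this.symm
  rw [← inner_dl, h1, ← star_star (lam s), star_lam, ContinuousLinearMap.star_eq_adjoint,
    ContinuousLinearMap.adjoint_inner_right, lam_dl]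
  rfl

theorem commute {x y : L2 G →L[ℂ] L2 G} (hx : x ∈ LG G) (hy : ∀ g : G, lam g * y = y * lam g) :
    y * x = x * y := by
  apply op_ext
  intro s
  apply vec_ext
  intro t
  rw [mul_ap, mul_ap, mul_coeff, mul_coeff]
  let σ : Equiv.Perm G :=
    { toFun := fun r => t * r⁻¹ * s
      invFun := fun r => s * r⁻¹ * t
      left_inv := fun r => by group
      right_inv := fun r => by group }
  rw [← Equiv.tsum_eq σ]
  refine tsum_congr fun r => ?_
  rw [com_coeff hy, LG_coeff hx, LG_coeff hx, com_coeff hy, mul_comm]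
  have e1 : σ r * s⁻¹ = t * r⁻¹ := by
    change t * r⁻¹ * s * s⁻¹ = t * r⁻¹
    group
  have e2 : (σ r)⁻¹ * t = s⁻¹ * r := by
    change (t * r⁻¹ * s)⁻¹ * t = s⁻¹ * r
    group
  rw [e1, e2]

theorem t_com : S_COM := by
  intro G _
  constructor
  · apply Set.Subset.antisymm
    · intro x hx
      rw [Set.mem_centralizer_iff] at hx
      refine mem_LG.2 fun g => hx _ ?_
      rw [Set.mem_centralizer_iff]
      rintro _ ⟨h, rfl⟩
      exact lam_rgt h g
    · intro x hx
      rw [Set.mem_centralizer_iff]
      intro y hy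
      rw [Set.mem_centralizer_iff] at hy
      exact commute hx fun g => hy _ ⟨g, rfl⟩
  · refine ⟨?_, ?_, ?_⟩
    · exact (dl_orthonormal (P := G) (f := fun g : G => g) Function.injective_id).1 1
    · intro x hx y hy
      rw [inner_dl, inner_dl, mul_coeff, mul_coeff, ← Equiv.tsum_eq (Equiv.inv G)]
      refine tsum_congr fun r => ?_
      rw [LG_coeff hx, LG_coeff hy, LG_coeff hx, LG_coeff hy, mul_comm, Equiv.inv_apply]
      congr 2
      · group
      · group
    · intro x hx h0
      apply op_ext
      intro s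
      apply vec_ext
      intro t
      rw [LG_coeff hx, cf, h0]
      simp

end

end Pool.Agent.N169.QWP
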