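import Pool.Agent.N557.QW.Stm

/-!
# QWP/FRE: freeness of the two copies of `L(G)` in the von Neumann algebra of the double
-/

set_option autoImplicit false

namespace Pool.Agent.N169.QWP.FRE

open Pool.Agent.H494R3.GT Pool.Agent.N557.QW

noncomputable section

/-- the coefficients of `x w` for `x ∈ L(Γ)` -/
theorem ap_coeff {Γ : Type} [Group Γ] {x : L2 Γ →L[ℂ] L2 Γ} (hx : x ∈ LG Γ) (w : L2 Γ) (γ : Γ) :
    (x w) γ = ∑' s, cf x (γ * s⁻¹) * w s := by
  have h0 : inner ℂ (dl γ) (x w) = inner ℂ (star x (dl γ)) w := by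
    rw [ContinuousLinearMap.star_eq_adjoint, ContinuousLinearMap.adjoint_inner_left]
  rw [← inner_dl γ (x w), h0, lp.inner_eq_tsum]
  refine tsum_congr fun s => ?_
  have h1 : (star x (dl γ)) s = (starRingEnd ℂ) (cf x (γ * s⁻¹)) := by
    rw [← inner_dl, ContinuousLinearMap.star_eq_adjoint, ContinuousLinearMap.adjoint_inner_right,
      ← inner_conj_symm, mem_LG_iff.1 hx]
  rw [h1, RCLike.inner_apply, starRingEnd_self_apply, mul_comm]

theorem support {Γ : Type} [Group Γ] {x : L2 Γ →L[ℂ] L2 Γ} (hx : x ∈ LG Γ) (w : L2 Γ) (γ : Γ)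
    (h : (x w) γ ≠ 0) : ∃ s, cf x (γ * s⁻¹) ≠ 0 ∧ w s ≠ 0 := by
  by_contra hcon
  push Not at hcon
  apply h
  rw [ap_coeff hx]
  have h1 : ∀ s, cf x (γ * s⁻¹) * w s = 0 := by
    intro s
    by_cases h2 : cf x (γ * s⁻¹) = 0
    · rw [h2, zero_mul]
    · rw [hcon s h2, mul_zero]
  rw [tsum_congr h1, tsum_zero]

variable {G : Type} [Group G] (K : Subgroup G)

theorem word
    (α : Fin 2 → (LG G).toStarSubalgebra →⋆ₐ[ℂ]
      (L2 (Monoid.PushoutI (fun _ : Fin 2 => K.subtype)) →L[ℂ]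
        L2 (Monoid.PushoutI (fun _ : Fin 2 => K.subtype))))
    (h1 : ∀ i x, α i x ∈ LG (Monoid.PushoutI (fun _ : Fin 2 => K.subtype)))
    (h2 : ∀ i x, ∀ γ ∉ Set.range (Monoid.PushoutI.of (φ := fun _ : Fin 2 => K.subtype) i),
      cf (α i x) γ = 0)
    (h3 : ∀ i x g, cf (α i x) (Monoid.PushoutI.of (φ := fun _ : Fin 2 => K.subtype) i g) =
      cf x.1 g) :
    ∀ (n : ℕ) (i : Fin n → Fin 2) (a : Fin n → (LG G).toStarSubalgebra),
      (∀ j, ∀ k ∈ K, cf (a j).1 k = 0) →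
      ∀ γ : Monoid.PushoutI (fun _ : Fin 2 => K.subtype),
        ((List.ofFn fun j => α (i j) (a j)).prod (dl 1)) γ ≠ 0 →
        ∃ g : Fin n → G, (∀ j, g j ∉ K) ∧ γ = (List.ofFn fun j =>
          Monoid.PushoutI.of (φ := fun _ : Fin 2 => K.subtype) (i j) (g j)).prod := by
  intro n
  induction n with
  | zero =>
    intro i a _ γ hγ
    refine ⟨fun j => j.elim0, fun j => j.elim0, ?_⟩
    rw [List.ofFn_zero, List.prod_nil] at hγ ⊢
    by_contra h0
    apply hγ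
    change (dl 1 : L2 (Monoid.PushoutI (fun _ : Fin 2 => K.subtype))) γ = 0
    exact dl_apply_ne h0
  | succ n ih =>
    intro i a ha γ hγ
    rw [List.ofFn_succ, List.prod_cons, mul_ap] at hγ
    obtain ⟨s, hs1, hs2⟩ := support (h1 _ _) _ γ hγ
    obtain ⟨g, hg1, hg2⟩ := ih (fun j => i j.succ) (fun j => a j.succ) (fun j => ha j.succ) s hs2
    have h4 : γ * s⁻¹ ∈ Set.range (Monoid.PushoutI.of (φ := fun _ : Fin 2 => K.subtype) (i 0)) := by
      by_contra h0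
      exact hs1 (h2 _ _ _ h0)
    obtain ⟨g₀, hg₀⟩ := h4
    have h5 : g₀ ∉ K := by
      intro h0
      rw [← hg₀, h3] at hs1
      exact hs1 (ha 0 g₀ h0)
    refine ⟨Fin.cons g₀ g, ?_, ?_⟩
    · intro j
      refine Fin.cases ?_ ?_ j
      · exact h5
      · intro j
        exact hg1 j
    · rw [List.ofFn_succ, List.prod_cons]
      simp only [Fin.cons_zero, Fin.cons_succ]
      rw [← hg2, hg₀, inv_mul_cancel_right]

theorem t_fre (h : S_RDC) : S_FRE := by
  intro G _ K α h1 h2 h3 n i a hi ha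
  rw [inner_dl]
  by_contra h0
  obtain ⟨g, hg1, hg2⟩ := word K α h1 h2 h3 (n + 1) i a ha 1 h0
  exact (h G K).1 n i g hi hg1 hg2.symm

end

end Pool.Agent.N169.QWP.FRE
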